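import Pool.Agent.N236.RT.Stm

/-!
# Project RT (helper236): symmetries of polynomials in two variables, TLA (helper864)
-/

set_option autoImplicit false

namespace Pool.Agent.N864.RT

open MvPolynomial
open Pool.Agent.N236.RT

section
variable {R : Type*} [CommRing R]

theorem tr_mono (ζ : Fin 2 → R) (n : Fin 2 →₀ ℕ) (c : R) :
    tr ζ (monomial n c) = monomial n (ζ 0 ^ n 0 * ζ 1 ^ n 1 * c) := by
  unfold tr
  rw [aeval_monomial, monomial_eq]
  have h1 : ∀ f : Fin 2 → ℕ → Pol R, (∀ i, f i 0 = 1) → n.prod f = f 0 (n 0) * f 1 (n 1) := by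
    intro f hf
    rw [Finsupp.prod_fintype _ _ hf, Fin.prod_univ_two]
  rw [h1 _ (fun i => by simp), h1 _ (fun i => by simp)]
  rw [MvPolynomial.algebraMap_eq, mul_pow, mul_pow, C_mul, C_mul, C_pow, C_pow]
  ring

theorem coeff_tr (ζ : Fin 2 → R) (P : Pol R) (m : Fin 2 →₀ ℕ) :
    coeff m (tr ζ P) = ζ 0 ^ m 0 * ζ 1 ^ m 1 * coeff m P := by
  induction P using MvPolynomial.induction_on' with
  | monomial n c =>
    rw [tr_mono, coeff_monomial, coeff_monomial]
    split_ifs with h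
    · rw [h]
    · rw [mul_zero]
  | add p q hp hq =>
    have : tr ζ (p + q) = tr ζ p + tr ζ q := by
      unfold tr
      rw [map_add]
    rw [this, coeff_add, coeff_add, hp, hq]
    ring

theorem tr_tr (ζ ξ : Fin 2 → R) (P : Pol R) : tr ζ (tr ξ P) = tr (ζ * ξ) P := by
  ext m
  rw [coeff_tr, coeff_tr, coeff_tr, Pi.mul_apply, Pi.mul_apply, mul_pow, mul_pow]
  ring

theorem tr_one (P : Pol R) : tr 1 P = P := by
  ext m
  rw [coeff_tr]
  simp

theorem tr_assoc {ζ : Fin 2 → R} {P Q : Pol R} (h : Associated P Q) :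
    Associated (tr ζ P) (tr ζ Q) := by
  unfold tr
  exact h.map (aeval (fun i => C (ζ i) * X i) : Pol R →ₐ[R] Pol R)
end

/-- the symmetry condition in terms of the support -/
theorem sym {f : Pol Qb} {ζ : Fin 2 → Qb} (h : Associated (tr ζ f) f) :
    ∃ c : Qb, ∀ m ∈ f.support, ζ 0 ^ m 0 * ζ 1 ^ m 1 = c := by
  obtain ⟨u, hu⟩ := h
  obtain ⟨r, hr, hur⟩ := (isUnit_iff_eq_C_of_isReduced).1 u.isUnit
  have hr0 : r ≠ 0 := hr.ne_zero
  refine ⟨r⁻¹, fun m hm => ?_⟩
  have h1 := congrArg (coeff m) hu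
  rw [hur, mul_comm, coeff_C_mul, coeff_tr] at h1
  rw [mem_support_iff] at hm
  have h2 : (ζ 0 ^ m 0 * ζ 1 ^ m 1 * r - 1) * coeff m f = 0 := by linear_combination h1
  have h3 := (mul_eq_zero.1 h2).resolve_right hm
  field_simp
  linear_combination h3

theorem root_one {i : ℕ} (hi : i.Prime) {x : Qb} (hx0 : x ≠ 0) (hx : x ^ i = 1) {d : ℤ}
    (hd : ¬ (i : ℤ) ∣ d) (hxd : x ^ d = 1) : x = 1 := by
  have hc : IsCoprime (i : ℤ) d := by
    rw [Prime.coprime_iff_not_dvd (Nat.prime_iff_prime_int.1 hi)]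
    exact hd
  obtain ⟨u, v, huv⟩ := hc
  have h1 : x ^ (u * i + v * d) = 1 := by
    rw [zpow_add₀ hx0, mul_comm u, mul_comm v, zpow_mul, zpow_mul, zpow_natCast, hx, hxd]
    simp
  rw [huv, zpow_one] at h1
  exact h1

theorem t_tla : S_TLA := by
  intro f a b I hf hB hI
  by_contra hcon
  push Not at hcon
  obtain ⟨hcol, hlt⟩ := hcon
  obtain ⟨m', hm'⟩ := (MvPolynomial.support_nonempty.2 hf)
  set w0 : (Fin 2 →₀ ℕ) → ℤ := fun m => (m 0 : ℤ) - m' 0 with hw0
  set w1 : (Fin 2 →₀ ℕ) → ℤ := fun m => (m 1 : ℤ) - m' 1 with hw1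
  -- some determinant does not vanish
  have hdet : ∃ p ∈ f.support, ∃ q ∈ f.support, w0 p * w1 q - w1 p * w0 q ≠ 0 := by
    by_contra hall
    push Not at hall
    apply hcol
    by_cases h1 : ∀ m ∈ f.support, w0 m = 0
    · refine ⟨1, 0, m' 0, by simp, fun m hm => ?_⟩
      have := h1 m hm
      simp only [hw0] at this
      linarith
    · push Not at h1
      obtain ⟨p, hp, hp0⟩ := h1
      refine ⟨w1 p, -w0 p, w1 p * m' 0 - w0 p * m' 1, ?_, fun m hm => ?_⟩
      · intro he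
        rw [Prod.mk.injEq] at he
        apply hp0
        have := he.2
        omega
      · have := hall p hp m hm
        simp only [hw0, hw1] at this ⊢
        linear_combination -this
  obtain ⟨p, hp, q, hq, hd⟩ := hdet
  set d : ℤ := w0 p * w1 q - w1 p * w0 q with hdd
  have hdiv : ∀ i ∈ I, (i : ℤ) ∣ d := by
    intro i hi
    obtain ⟨hip, ζ, hζi, hζ1, hζ⟩ := hI i hi
    by_contra hnd
    apply hζ1
    have h0 : ζ 0 ^ i = 1 := by
      have := congrFun hζi 0
      simpa using this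
    have h1 : ζ 1 ^ i = 1 := by
      have := congrFun hζi 1
      simpa using this
    have z0 : ζ 0 ≠ 0 := by
      intro h
      rw [h, zero_pow hip.ne_zero] at h0
      exact zero_ne_one h0
    have z1 : ζ 1 ≠ 0 := by
      intro h
      rw [h, zero_pow hip.ne_zero] at h1
      exact zero_ne_one h1
    obtain ⟨c, hc⟩ := sym hζ
    have key : ∀ m ∈ f.support, ζ 0 ^ (w0 m) * ζ 1 ^ (w1 m) = 1 := by
      intro m hm
      simp only [hw0, hw1]
      rw [zpow_sub₀ z0, zpow_sub₀ z1, zpow_natCast, zpow_natCast, zpow_natCast, zpow_natCast]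
      have e1 := hc m hm
      have e2 := hc m' hm'
      have e3 : ζ 0 ^ m' 0 ≠ 0 := pow_ne_zero _ z0
      have e4 : ζ 1 ^ m' 1 ≠ 0 := pow_ne_zero _ z1
      field_simp
      rw [e1, ← e2]
    have kp := key p hp
    have kq := key q hq
    have e0 : ζ 0 ^ d = 1 := by
      have h2 : (ζ 0 ^ (w0 p) * ζ 1 ^ (w1 p)) ^ (w1 q) = 1 := by rw [kp, one_zpow]
      have h3 : (ζ 0 ^ (w0 q) * ζ 1 ^ (w1 q)) ^ (w1 p) = 1 := by rw [kq, one_zpow]
      rw [mul_zpow, ← zpow_mul, ← zpow_mul] at h2 h3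
      have h4 : ζ 0 ^ d = (ζ 0 ^ (w0 p * w1 q) * ζ 1 ^ (w1 p * w1 q)) /
          (ζ 0 ^ (w0 q * w1 p) * ζ 1 ^ (w1 q * w1 p)) := by
        have e5 : w1 q * w1 p = w1 p * w1 q := mul_comm _ _
        rw [e5, mul_div_mul_right _ _ (zpow_ne_zero _ z1), ← zpow_sub₀ z0, hdd]
        congr 1
        ring
      rw [h4, h2, h3, div_one]
    have e1 : ζ 1 ^ d = 1 := by
      have h2 : (ζ 0 ^ (w0 p) * ζ 1 ^ (w1 p)) ^ (w0 q) = 1 := by rw [kp, one_zpow]
      have h3 : (ζ 0 ^ (w0 q) * ζ 1 ^ (w1 q)) ^ (w0 p) = 1 := by rw [kq, one_zpow]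
      rw [mul_zpow, ← zpow_mul, ← zpow_mul] at h2 h3
      have h4 : ζ 1 ^ d = (ζ 0 ^ (w0 q * w0 p) * ζ 1 ^ (w1 q * w0 p)) /
          (ζ 0 ^ (w0 p * w0 q) * ζ 1 ^ (w1 p * w0 q)) := by
        have e5 : w0 q * w0 p = w0 p * w0 q := mul_comm _ _
        rw [e5, mul_div_mul_left _ _ (zpow_ne_zero _ z0), ← zpow_sub₀ z1, hdd]
        congr 1
        ring
      rw [h4, h2, h3, div_one]
    funext j
    fin_cases j
    · exact root_one hip z0 h0 hnd e0
    · exact root_one hip z1 h1 hnd e1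
  have hprod : (∏ i ∈ I, i) ∣ d.natAbs := by
    apply Finset.prod_primes_dvd
    · intro i hi
      exact (hI i hi).1.prime
    · intro i hi
      exact Int.natCast_dvd.1 (hdiv i hi)
  have h2 : 2 ^ I.card ≤ ∏ i ∈ I, i := by
    rw [← Finset.prod_const]
    exact Finset.prod_le_prod' fun i hi => (hI i hi).1.two_le
  have h3 := Nat.le_of_dvd (Int.natAbs_pos.2 hd) hprod
  have h4 : (d.natAbs : ℤ) ≤ 2 * a * b := by
    obtain ⟨p1, p2⟩ := hB p hp
    obtain ⟨q1, q2⟩ := hB q hq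
    obtain ⟨r1, r2⟩ := hB m' hm'
    have e1 : |w0 p| ≤ a := by
      simp only [hw0]
      rw [abs_le]
      omega
    have e2 : |w1 p| ≤ b := by
      simp only [hw1]
      rw [abs_le]
      omega
    have e3 : |w0 q| ≤ a := by
      simp only [hw0]
      rw [abs_le]
      omega
    have e4 : |w1 q| ≤ b := by
      simp only [hw1]
      rw [abs_le]
      omega
    rw [Int.natCast_natAbs, hdd]
    refine (abs_sub _ _).trans ?_
    rw [abs_mul, abs_mul]
    have e5 : |w0 p| * |w1 q| ≤ a * b := mul_le_mul e1 e4 (abs_nonneg _) (by positivity)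
    have e6 : |w1 p| * |w0 q| ≤ b * a := mul_le_mul e2 e3 (abs_nonneg _) (by positivity)
    nlinarith
  have h5 : d.natAbs ≤ 2 * a * b := by exact_mod_cast h4
  omega

end Pool.Agent.N864.RT
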