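import Pool.Agent.N864.RT.Tl

/-!
# Project RT (helper236): translates which are conjugates, TLB (helper864)
-/

set_option autoImplicit false

namespace Pool.Agent.N864.RT

open MvPolynomial
open Pool.Agent.N236.RT

theorem gal_tr (τ : Qb ≃ₐ[ℚ] Qb) (ζ : Fin 2 → Qb) (P : Pol Qb) :
    gal τ (tr ζ P) = tr (fun i => τ (ζ i)) (gal τ P) := by
  ext m
  unfold gal
  rw [coeff_map, coeff_tr, coeff_tr, coeff_map, map_mul, map_mul, map_pow, map_pow]
  rfl

theorem gal_one (P : Pol Qb) : gal 1 P = P := by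
  ext m
  unfold gal
  rw [coeff_map]
  rfl

theorem gal_gal (σ τ : Qb ≃ₐ[ℚ] Qb) (P : Pol Qb) : gal σ (gal τ P) = gal (σ * τ) P := by
  ext m
  unfold gal
  rw [coeff_map, coeff_map, coeff_map]
  rfl

theorem gal_up (τ : Qb ≃ₐ[ℚ] Qb) (F : Pol ℚ) : gal τ (up F) = up F := by
  ext m
  unfold gal up
  rw [coeff_map, coeff_map]
  exact τ.commutes _

theorem gal_assoc (τ : Qb ≃ₐ[ℚ] Qb) {P Q : Pol Qb} (h : Associated P Q) :
    Associated (gal τ P) (gal τ Q) := by
  unfold gal
  exact h.map (MvPolynomial.map (τ : Qb →+* Qb))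

theorem gal_irr (τ : Qb ≃ₐ[ℚ] Qb) {P : Pol Qb} (h : Irreducible P) : Irreducible (gal τ P) := by
  have h1 : gal τ P = MvPolynomial.mapEquiv (Fin 2) (τ : Qb ≃+* Qb) P := rfl
  rw [h1]
  exact (MulEquiv.irreducible_iff (MvPolynomial.mapEquiv (Fin 2) (τ : Qb ≃+* Qb)).toMulEquiv).2 h

theorem gal_dvd (τ : Qb ≃ₐ[ℚ] Qb) {P : Pol Qb} {F : Pol ℚ} (h : P ∣ up F) : gal τ P ∣ up F := by
  rw [← gal_up τ F]
  unfold gal
  exact map_dvd (MvPolynomial.map (τ : Qb →+* Qb)) h

theorem deg_pos {g : Pol Qb} (hg : Irreducible g) : 1 ≤ degreeOf 0 g + degreeOf 1 g := by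
  by_contra hcon
  have h0 : degreeOf 0 g = 0 := by omega
  have h1 : degreeOf 1 g = 0 := by omega
  have h2 : g = C (coeff 0 g) := by
    ext m
    rw [coeff_C]
    split_ifs with h
    · rw [← h]
    · by_contra hm
      apply h
      have hm' : m ∈ g.support := mem_support_iff.2 hm
      have e0 := monomial_le_degreeOf 0 hm'
      have e1 := monomial_le_degreeOf 1 hm'
      ext j
      fin_cases j
      · simp only [Finsupp.coe_zero, Pi.zero_apply]
        show 0 = m 0
        omega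
      · simp only [Finsupp.coe_zero, Pi.zero_apply]
        show 0 = m 1
        omega
  by_cases hc : coeff 0 g = 0
  · rw [hc, C_0] at h2
    exact hg.ne_zero h2
  · apply hg.not_isUnit
    rw [h2]
    exact (isUnit_iff_ne_zero.2 hc).map C

theorem deg_le {F : Pol ℚ} {a b : ℕ} (h : Bd a b F) : degreeOf 0 (up F) ≤ a ∧ degreeOf 1 (up F) ≤ b := by
  unfold up
  constructor
  · rw [degreeOf_le_iff]
    intro m hm
    exact (h m (support_map_subset _ _ hm)).1
  · rw [degreeOf_le_iff]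
    intro m hm
    exact (h m (support_map_subset _ _ hm)).2

theorem stab_pow {f : Pol Qb} {η : Fin 2 → Qb} (h : Associated (tr η f) f) (k : ℕ) :
    Associated (tr (η ^ k) f) f := by
  induction k with
  | zero => rw [pow_zero, tr_one]
  | succ k ih =>
    rw [pow_succ', ← tr_tr]
    exact (tr_assoc ih).trans h

theorem dist {f : Pol Qb} {I : Finset ℕ} (hI : ∀ i ∈ I, i.Prime ∧
    ∀ ζ : Fin 2 → Qb, ζ ^ i = 1 → Associated (tr ζ f) f → ζ = 1) {S S' : Finset ℕ} (hS : S ⊆ I)
    (hS' : S' ⊆ I) {s : ℕ} (hs : s ∈ S) (hs' : s ∉ S') {ξ ξ' : ℕ → Fin 2 → Qb}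
    (h : ∀ r ∈ S, ξ r ^ r = 1 ∧ ξ r ≠ 1) (h' : ∀ r ∈ S', ξ' r ^ r = 1) :
    ¬ Associated (tr (∏ r ∈ S, ξ r) f) (tr (∏ r ∈ S', ξ' r) f) := by
  intro hass
  set M : ℕ := ∏ r ∈ I.erase s, r with hM
  set N : ℕ := ∏ r ∈ I, r with hN
  have hN1 : (∏ r ∈ S', ξ' r) ^ N = 1 := by
    rw [← Finset.prod_pow]
    apply Finset.prod_eq_one
    intro r hr
    obtain ⟨k, hk⟩ : r ∣ N := Finset.dvd_prod_of_mem (fun r => r) (hS' hr)
    rw [hk, pow_mul, h' r hr, one_pow]
  have hNpos : 0 < N := Finset.prod_pos fun r hr => (hI r hr).1.pos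
  have h1 : Associated (tr ((∏ r ∈ S', ξ' r) ^ (N - 1) * ∏ r ∈ S, ξ r) f) f := by
    rw [← tr_tr]
    refine (tr_assoc hass).trans ?_
    rw [tr_tr, ← pow_succ, Nat.sub_add_cancel hNpos, hN1, tr_one]
  have h2 := stab_pow h1 M
  have h3 : ((∏ r ∈ S', ξ' r) ^ (N - 1) * ∏ r ∈ S, ξ r) ^ M = (ξ s) ^ M := by
    rw [mul_pow, ← pow_mul, mul_comm (N - 1) M, pow_mul]
    have e1 : (∏ r ∈ S', ξ' r) ^ M = 1 := by
      rw [← Finset.prod_pow]
      apply Finset.prod_eq_one
      intro r hr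
      have hrs : r ≠ s := by
        rintro rfl
        exact hs' hr
      obtain ⟨k, hk⟩ : r ∣ M := Finset.dvd_prod_of_mem (fun r => r)
        (Finset.mem_erase.2 ⟨hrs, hS' hr⟩)
      rw [hk, pow_mul, h' r hr, one_pow]
    rw [e1, one_pow, one_mul, ← Finset.prod_pow]
    apply Finset.prod_eq_single_of_mem s hs
    intro r hr hrs
    obtain ⟨k, hk⟩ : r ∣ M := Finset.dvd_prod_of_mem (fun r => r)
      (Finset.mem_erase.2 ⟨hrs, hS hr⟩)
    rw [hk, pow_mul, (h r hr).1, one_pow]
  rw [h3] at h2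
  have hsp := hI s (hS hs)
  have h4 := hsp.2 ((ξ s) ^ M) (by rw [← pow_mul, mul_comm, pow_mul, (h s hs).1, one_pow]) h2
  have hcop : Nat.Coprime s M := by
    rw [hM]
    apply Nat.Coprime.prod_right
    intro r hr
    rw [Finset.mem_erase] at hr
    exact (Nat.coprime_primes hsp.1 (hI r hr.2).1).2 (fun e => hr.1 e.symm)
  apply (h s hs).2
  funext j
  have e1 : (ξ s j) ^ s = 1 := by
    have := congrFun (h s hs).1 j
    simpa using this
  have e2 : (ξ s j) ^ M = 1 := by
    have := congrFun h4 j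
    simpa using this
  have e3 : (ξ s j) ^ (Nat.gcd s M) = 1 := pow_gcd_eq_one.2 ⟨e1, e2⟩
  rw [hcop, pow_one] at e3
  exact e3

theorem t_tlb : S_TLB := by
  intro F f a b I hF hB hf hfF hI
  have key : ∀ S : Finset ℕ, S ⊆ I → ∃ (τ : Qb ≃ₐ[ℚ] Qb) (ξ : ℕ → Fin 2 → Qb),
      (∀ s ∈ S, ξ s ^ s = 1 ∧ ξ s ≠ 1) ∧ Associated (gal τ f) (tr (∏ s ∈ S, ξ s) f) := by
    intro S
    induction S using Finset.induction_on with
    | empty =>
      intro _
      refine ⟨1, fun _ => 1, by simp, ?_⟩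
      rw [Finset.prod_empty, tr_one, gal_one]
    | insert j S hj ih =>
      intro hS
      obtain ⟨τ, ξ, h1, h2⟩ := ih ((Finset.subset_insert _ _).trans hS)
      obtain ⟨hjp, ⟨ζ, hζ1, hζ2, τj, hζ3⟩, -⟩ := hI j (hS (Finset.mem_insert_self _ _))
      refine ⟨τj * τ, fun s => if s = j then ζ else fun i => τj (ξ s i), ?_, ?_⟩
      · intro s hs
        beta_reduce
        by_cases hsj : s = j
        · subst hsj
          rw [if_pos rfl]
          exact ⟨hζ1, hζ2⟩
        · rw [if_neg hsj]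
          have hs' := h1 s (Finset.mem_of_mem_insert_of_ne hs hsj)
          constructor
          · funext i
            have := congrFun hs'.1 i
            simp only [Pi.pow_apply, Pi.one_apply] at this ⊢
            rw [← map_pow, this, map_one]
          · intro he
            apply hs'.2
            funext i
            have := congrFun he i
            simp only [Pi.one_apply] at this ⊢
            apply τj.injective
            rw [this, map_one]
      · rw [← gal_gal]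
        refine (gal_assoc τj h2).trans ?_
        rw [gal_tr, Finset.prod_insert hj, if_pos rfl]
        have e1 : ∏ s ∈ S, (if s = j then ζ else fun i => τj (ξ s i)) =
            fun i => τj ((∏ s ∈ S, ξ s) i) := by
          funext i
          rw [Finset.prod_apply, Finset.prod_apply, map_prod]
          refine Finset.prod_congr rfl fun s hs => ?_
          rw [if_neg]
          rintro rfl
          exact hj hs
        rw [e1, mul_comm, ← tr_tr]
        exact tr_assoc hζ3.symm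
  choose! τ ξ h using key
  have hI' : ∀ i ∈ I, i.Prime ∧ ∀ ζ : Fin 2 → Qb, ζ ^ i = 1 → Associated (tr ζ f) f → ζ = 1 :=
    fun i hi => ⟨(hI i hi).1, (hI i hi).2.2⟩
  have hdist : ∀ S ∈ I.powerset, ∀ S' ∈ I.powerset, S ≠ S' →
      ¬ Associated (gal (τ S) f) (gal (τ S') f) := by
    intro S hS S' hS' hne hass
    rw [Finset.mem_powerset] at hS hS'
    have h1 := h S hS
    have h2 := h S' hS'
    have h3 : Associated (tr (∏ r ∈ S, ξ S r) f) (tr (∏ r ∈ S', ξ S' r) f) :=
      (h1.2.symm.trans hass).trans h2.2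
    by_cases hsub : S ⊆ S'
    · have hns : ¬ S' ⊆ S := fun h4 => hne (Finset.Subset.antisymm hsub h4)
      rw [Finset.not_subset] at hns
      obtain ⟨s, hs, hs'⟩ := hns
      exact dist hI' hS' hS hs hs' h2.1 (fun r hr => (h1.1 r hr).1) h3.symm
    · rw [Finset.not_subset] at hsub
      obtain ⟨s, hs, hs'⟩ := hsub
      exact dist hI' hS hS' hs hs' h1.1 (fun r hr => (h2.1 r hr).1) h3
  have hprod : ∏ S ∈ I.powerset, gal (τ S) f ∣ up F := by
    apply Finset.prod_dvd_of_isRelPrime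
    · intro S hS S' hS' hne
      show IsRelPrime (gal (τ S) f) (gal (τ S') f)
      rw [(gal_irr _ hf).isRelPrime_iff_not_dvd]
      intro hd
      exact hdist S (Finset.mem_coe.1 hS) S' (Finset.mem_coe.1 hS') hne
        ((gal_irr _ hf).associated_of_dvd (gal_irr _ hf) hd)
    · intro S _
      exact gal_dvd _ hfF
  obtain ⟨g, hg⟩ := hprod
  have hup : up F ≠ 0 := by
    intro h0
    apply hF
    apply MvPolynomial.map_injective (algebraMap ℚ Qb) (algebraMap ℚ Qb).injective
    rw [map_zero]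
    exact h0
  have hp0 : (∏ S ∈ I.powerset, gal (τ S) f) ≠ 0 := by
    intro h0
    rw [h0, zero_mul] at hg
    exact hup hg
  have hg0 : g ≠ 0 := by
    intro h0
    rw [h0, mul_zero] at hg
    exact hup hg
  have hd : ∀ n : Fin 2, ∑ S ∈ I.powerset, degreeOf n (gal (τ S) f) ≤ degreeOf n (up F) := by
    intro n
    rw [hg, degreeOf_mul_eq hp0 hg0, degreeOf_prod_eq _ _ (fun S _ => (gal_irr _ hf).ne_zero)]
    omega
  have h1 := hd 0
  have h2 := hd 1
  obtain ⟨h3, h4⟩ := deg_le hB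
  have h5 : ∑ S ∈ I.powerset, 1 ≤ ∑ S ∈ I.powerset, (degreeOf 0 (gal (τ S) f) + degreeOf 1 (gal (τ S) f)) :=
    Finset.sum_le_sum fun S _ => deg_pos (gal_irr _ hf)
  rw [Finset.sum_add_distrib, Finset.sum_const, Finset.card_powerset, smul_eq_mul, mul_one] at h5
  omega

end Pool.Agent.N864.RT
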